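import Pool.Agent.Helper50.BP.St

set_option autoImplicit false

namespace Pool.Agent.Helper39.BP

open Pool.Agent.Helper43.GD Pool.Agent.Helper73.BG Pool.Agent.Helper50.BP

theorem hGNV : StGNV := by
  intro p _ n hn v x k hk hv N h1 hx
  have hn0 : n ≠ 0 := by omega
  -- the multiplier algebra of N
  let M : Subalgebra (ZMod p) (GaloisField p n) :=
    { carrier := {y | ∀ z ∈ N, y * z ∈ N}
      mul_mem' := fun {a b} ha hb z hz => by
        rw [mul_assoc]; exact ha _ (hb z hz)
      add_mem' := fun {a b} ha hb z hz => by
        rw [add_mul]; exact N.add_mem (ha z hz) (hb z hz)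
      algebraMap_mem' := fun r z hz => by
        have e : algebraMap (ZMod p) (GaloisField p n) r * z = r.val • z := by
          rw [← Algebra.smul_def]
          conv_lhs => rw [← ZMod.natCast_zmod_val r]
          rw [Nat.cast_smul_eq_nsmul]
        rw [e]
        exact N.nsmul_mem hz _ }
  have hM : ∀ y, y ∈ M ↔ ∀ z ∈ N, y * z ∈ N := fun y => Iff.rfl
  haveI : Fintype (GaloisField p n) := Fintype.ofFinite _
  have hinv : ∀ y ∈ M, y⁻¹ ∈ M := by
    intro y hy
    by_cases h0 : y = 0
    · rw [h0, inv_zero]; exact M.zero_mem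
    · have hc := FiniteField.pow_card_sub_one_eq_one y h0
      have hq : 2 ≤ Fintype.card (GaloisField p n) := Fintype.one_lt_card
      have e : y⁻¹ = y ^ (Fintype.card (GaloisField p n) - 2) := by
        symm
        apply eq_inv_of_mul_eq_one_left
        rw [← pow_succ, ← hc]
        congr 1
        omega
      rw [e]
      exact M.pow_mem hy _
  let F : IntermediateField (ZMod p) (GaloisField p n) := M.toIntermediateField hinv
  have hF : ∀ y, y ∈ F ↔ ∀ z ∈ N, y * z ∈ N := fun y => Iff.rfl
  have hxF : (x : GaloisField p n) ∈ F := (hF _).2 hx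
  have hvF : (v : GaloisField p n) ∈ F := by
    rw [← hk, Units.val_pow_eq_pow_val]
    exact pow_mem hxF k
  have hmul := Module.finrank_mul_finrank (ZMod p) F (GaloisField p n)
  rw [GaloisField.finrank p hn0] at hmul
  have hd1 : 1 ≤ Module.finrank (ZMod p) F := Module.finrank_pos
  have hdn : Module.finrank (ZMod p) F ≤ n :=
    Nat.le_of_dvd (by omega) (Dvd.intro _ hmul)
  haveI : Fintype F := Fintype.ofFinite _
  have hcard : Fintype.card F = p ^ Module.finrank (ZMod p) F := by
    have := Module.card_eq_pow_finrank (K := ZMod p) (V := F)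
    rwa [ZMod.card] at this
  have hvne : (⟨(v : GaloisField p n), hvF⟩ : F) ≠ 0 := by
    intro h
    exact v.ne_zero (congrArg Subtype.val h)
  have hpow := FiniteField.pow_card_sub_one_eq_one _ hvne
  rw [hcard] at hpow
  have hpow' : v ^ (p ^ Module.finrank (ZMod p) F - 1) = 1 := by
    apply Units.ext
    rw [Units.val_pow_eq_pow_val]
    exact congrArg Subtype.val hpow
  have hdeq : Module.finrank (ZMod p) F = n := by
    by_contra hne
    exact hv _ hd1 (lt_of_le_of_ne hdn hne) hpow'
  have htop : F = ⊤ := by
    refine IntermediateField.eq_of_le_of_finrank_eq le_top ?_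
    rw [hdeq, IntermediateField.finrank_top', GaloisField.finrank p hn0]
  intro y
  have hy : y ∈ F := by rw [htop]; exact IntermediateField.mem_top
  have := (hF y).1 hy 1 h1
  rwa [mul_one] at this

end Pool.Agent.Helper39.BP
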